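import Pool.Agent.TH550.NRZ.Elim

/-!
# Elimination of arbitrary complex numbers (product inequality)

Copy of the lemma `core` of the starting file `Pool.Agent.Results.MP_807c24_nt.DegreeAtMostThree`.
-/

set_option autoImplicit false

namespace Pool.Agent.N743.SD

open Pool.Agent.TH550.NRZ

/-- **Product inequality** for complex linear forms, elimination of arbitrary complex numbers. -/
theorem core {n : ℕ} (v : Fin n → ℂ) (κ : ℕ) (c : ℝ) (hc : 0 < c)
    (hm : ∀ P : Fin n → ℤ, P ≠ 0 → ∀ H : ℝ, 1 ≤ H → (∀ i, |(P i : ℝ)| ≤ H) →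
      c / H ^ κ ≤ ‖∑ i, (P i : ℂ) * v i‖) (r : ℕ) :
    ∃ c' : ℝ, 0 < c' ∧ ∀ (t : Fin r → ℂ) (P : Fin (r + 1) → Fin n → ℤ) (e : Fin (r + 1) → Fin r → ℤ)
      (h : Fin (r + 1) → ℝ), LinearIndependent ℤ (fun k => (P k, e k)) →
      (∀ k, 1 ≤ h k ∧ (∀ i, |(P k i : ℝ)| ≤ h k) ∧ ∀ i, |(e k i : ℝ)| ≤ h k) →
      c' * ∏ k, (h k ^ (κ + 1))⁻¹ ≤
        ∑ k, ‖(∑ i, (P k i : ℂ) * v i) + ∑ i, (e k i : ℂ) * t i‖ / h k := by
  obtain ⟨C, hC1, hCdef⟩ : ∃ C : ℝ, 1 ≤ C ∧ C = ((2 * r + 3 : ℕ) : ℝ) ^ r := by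
    refine ⟨_, ?_, rfl⟩
    apply one_le_pow₀
    norm_cast
    omega
  have hC0 : 0 < C := by linarith
  refine ⟨c / (C * (((r : ℝ) + 1) * C) ^ κ), by positivity, ?_⟩
  intro t P e h hli hh
  have h1 : ∀ k, 1 ≤ h k := fun k => (hh k).1
  have hh0 : ∀ k, 0 < h k := fun k => lt_of_lt_of_le one_pos (h1 k)
  obtain ⟨l, hl0, hl, hlb⟩ := siegel_weighted r e h h1 (fun k j => (hh k).2.2 j)
  obtain ⟨H, hHdef⟩ : ∃ H : ℝ, H = ∏ k, h k := ⟨_, rfl⟩
  have hH1 : 1 ≤ H := by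
    rw [hHdef]
    exact one_le_prod_real _ h1
  have hH0 : 0 < H := by linarith
  have hlb' : ∀ k, |(l k : ℝ)| * h k ≤ C * H := by
    intro k
    have h2 := hlb k
    rw [← hHdef, ← hCdef] at h2
    exact h2
  obtain ⟨A, hA⟩ : ∃ A : Fin n → ℤ, A = fun j => ∑ k, l k * P k j := ⟨_, rfl⟩
  have hA0 : A ≠ 0 := by
    intro hcon
    apply hl0
    have h2 : ∑ k, l k • (P k, e k) = 0 := by
      rw [Prod.ext_iff]
      constructor
      · rw [Prod.fst_sum]
        funext j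
        rw [Finset.sum_apply]
        have := congrFun hcon j
        simpa [hA] using this
      · rw [Prod.snd_sum]
        funext j
        rw [Finset.sum_apply]
        have := hl j
        simpa using this
    have := Fintype.linearIndependent_iff.1 hli l h2
    funext i
    exact this i
  have hAb : ∀ j, |(A j : ℝ)| ≤ ((r : ℝ) + 1) * C * H := by
    intro j
    simp only [hA]
    push_cast
    calc |∑ k, (l k : ℝ) * (P k j : ℝ)| ≤ ∑ k, |(l k : ℝ) * (P k j : ℝ)| :=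
          Finset.abs_sum_le_sum_abs _ _
      _ ≤ ∑ _k : Fin (r + 1), C * H := by
          refine Finset.sum_le_sum fun k _ => ?_
          rw [abs_mul]
          calc |(l k : ℝ)| * |(P k j : ℝ)| ≤ |(l k : ℝ)| * h k := by
                gcongr
                exact (hh k).2.1 j
            _ ≤ C * H := hlb' k
      _ = ((r : ℝ) + 1) * C * H := by
          rw [Finset.sum_const, Finset.card_univ, Fintype.card_fin, nsmul_eq_mul]
          push_cast
          ring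
  have hr0 : (0 : ℝ) ≤ r := Nat.cast_nonneg r
  have hbig : 1 ≤ ((r : ℝ) + 1) * C * H := by
    have h2 : 1 ≤ ((r : ℝ) + 1) * C := by nlinarith
    nlinarith
  have hlow := hm A hA0 _ hbig hAb
  have hsum : ∑ j, (A j : ℂ) * v j =
      ∑ k, (l k : ℂ) * ((∑ i, (P k i : ℂ) * v i) + ∑ i, (e k i : ℂ) * t i) := by
    have h2 : ∑ k, (l k : ℂ) * ∑ j, (e k j : ℂ) * t j = 0 := by
      calc ∑ k, (l k : ℂ) * ∑ j, (e k j : ℂ) * t j
          = ∑ j, (∑ k, (l k : ℂ) * (e k j : ℂ)) * t j := by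
            simp only [Finset.mul_sum, Finset.sum_mul]
            rw [Finset.sum_comm]
            refine Finset.sum_congr rfl fun j _ => Finset.sum_congr rfl fun i _ => ?_
            ring
        _ = 0 := by
            refine Finset.sum_eq_zero fun j _ => ?_
            have h3 : (∑ k, (l k : ℂ) * (e k j : ℂ)) = 0 := by exact_mod_cast hl j
            rw [h3, zero_mul]
    simp only [mul_add, Finset.sum_add_distrib]
    rw [h2, add_zero, hA]
    push_cast
    simp only [Finset.mul_sum, Finset.sum_mul]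
    rw [Finset.sum_comm]
    refine Finset.sum_congr rfl fun i _ => Finset.sum_congr rfl fun j _ => ?_
    ring
  have hup : ‖∑ j, (A j : ℂ) * v j‖ ≤ C * H *
      ∑ k, ‖(∑ i, (P k i : ℂ) * v i) + ∑ i, (e k i : ℂ) * t i‖ / h k := by
    rw [hsum, Finset.mul_sum]
    refine (norm_sum_le _ _).trans (Finset.sum_le_sum fun k _ => ?_)
    rw [norm_mul, Complex.norm_intCast]
    calc |(l k : ℝ)| * ‖(∑ i, (P k i : ℂ) * v i) + ∑ i, (e k i : ℂ) * t i‖
        = (|(l k : ℝ)| * h k) * (‖(∑ i, (P k i : ℂ) * v i) + ∑ i, (e k i : ℂ) * t i‖ / h k) := by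
          have := (hh0 k).ne'
          field_simp
      _ ≤ C * H * (‖(∑ i, (P k i : ℂ) * v i) + ∑ i, (e k i : ℂ) * t i‖ / h k) := by
          exact mul_le_mul_of_nonneg_right (hlb' k) (div_nonneg (norm_nonneg _) (hh0 k).le)
  have hprod : ∏ k, (h k ^ (κ + 1))⁻¹ = (H ^ (κ + 1))⁻¹ := by
    rw [Finset.prod_inv_distrib, Finset.prod_pow, ← hHdef]
  rw [hprod]
  obtain ⟨S, hS⟩ : ∃ S : ℝ, S = ∑ k, ‖(∑ i, (P k i : ℂ) * v i) + ∑ i, (e k i : ℂ) * t i‖ / h k := ⟨_, rfl⟩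
  rw [← hS] at hup ⊢
  have h5 : c / (((r : ℝ) + 1) * C * H) ^ κ ≤ C * H * S := hlow.trans hup
  have h6 : 0 < C * H := mul_pos hC0 hH0
  calc c / (C * (((r : ℝ) + 1) * C) ^ κ) * (H ^ (κ + 1))⁻¹
      = (c / (((r : ℝ) + 1) * C * H) ^ κ) / (C * H) := by
        rw [mul_pow (((r : ℝ) + 1) * C) H κ, pow_succ H κ]
        field_simp
    _ ≤ S := by
        rw [div_le_iff₀ h6]
        linarith


end Pool.Agent.N743.SD
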