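import Pool.Agent.N743.SD.Engine

/-!
# Scale dichotomy for subspaces of near relations: the theorem
-/

set_option autoImplicit false

open Filter Module

namespace Pool.Agent.N743.SD

variable {ι : Type} [Fintype ι]

/-- the dichotomy of rank `r` for the spaces of near relations -/
structure DichS (r : ℕ) (v : ι → ℂ) (θ M X₁ : ℝ) : Prop where
  a : ∀ X, X₁ ≤ X → finrank ℚ (NearSpan v θ X) ≤ r
  b : finrank ℚ (Rel v) ≤ r
  b' : finrank ℚ (Rel v) = r → ∀ᶠ X : ℝ in atTop, NearSpan v θ X = Rel v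
  c : finrank ℚ (Rel v) < r → ∀ X, X₁ ≤ X → finrank ℚ (NearSpan v θ X) = r → ∃ Z, X ≤ Z ∧
    (∀ Y, X ≤ Y → Y ≤ Z → NearSpan v θ Y ≤ NearSpan v θ X) ∧
      ∀ Y, Z < Y → Y ≤ Z ^ M → finrank ℚ (NearSpan v θ Y) < r
  d : finrank ℚ (Rel v) < r → ∀ X, ∃ Z, X ≤ Z ∧ ∀ Y, Z < Y → Y ≤ Z ^ M → finrank ℚ (NearSpan v θ Y) < r
  e : finrank ℚ (Rel v) = r ↔ ∀ᶠ X : ℝ in atTop, finrank ℚ (NearSpan v θ X) = r

theorem val_combo (v : ι → ℂ) {r : ℕ} (c : Fin r → ι → ℤ) (a : ι → ℤ) (l0 : ℤ) (l : Fin r → ℤ)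
    (h : ∀ i, l0 * a i = ∑ j, l j * c j i) : (l0 : ℂ) * val v a = ∑ j, (l j : ℂ) * val v (c j) := by
  unfold val
  simp only [Finset.mul_sum]
  rw [Finset.sum_comm]
  refine Finset.sum_congr rfl fun i _ => ?_
  have h1 : (l0 : ℂ) * (a i : ℂ) = ∑ j, (l j : ℂ) * (c j i : ℂ) := by exact_mod_cast h i
  rw [← mul_assoc, h1, Finset.sum_mul]
  exact Finset.sum_congr rfl fun j _ => by ring

theorem near_up (v : ι → ℂ) {θ θ' X Y : ℝ} (hX : 1 ≤ X) (hXY : X ≤ Y) (a : ι → ℤ) (ha : ∀ i, |(a i : ℝ)| ≤ X ^ θ)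
    (hθ : 0 ≤ θ) (hθθ : θ ≤ θ') (hv : ‖val v a‖ ≤ 1 / Y) : a ∈ Near v θ' Y := by
  refine ⟨fun i => (ha i).trans ?_, hv⟩
  calc X ^ θ ≤ Y ^ θ := Real.rpow_le_rpow (by linarith) hXY hθ
    _ ≤ Y ^ θ' := Real.rpow_le_rpow_of_exponent_le (by linarith) hθθ

theorem dich (r : ℕ) (θ₀ X₀ θ M : ℝ) (hθ : 0 < θ) (hM : 1 < M)
    (h1 : 2 * M * θ ≤ θ₀) (h2 : 2 * M * r * θ < 1) : ∃ X₁ : ℝ, ∀ v : ι → ℂ,
      (∀ X, X₀ ≤ X → finrank ℚ (NearSpan v θ₀ X) ≤ r) → DichS r v θ M X₁ := by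
  have hθθ₀ : θ ≤ θ₀ := by nlinarith
  have hexp : 0 < 1 - 2 * M * r * θ := by linarith
  obtain ⟨X₁, hX₁⟩ := eventually_atTop.1 ((((tendsto_rpow_atTop hexp).eventually_gt_atTop
    ((r : ℝ) * r.factorial)).and (eventually_ge_atTop X₀)).and (eventually_ge_atTop (2 : ℝ)))
  refine ⟨X₁, fun v hv => ?_⟩
  have hX₁' : ∀ X, X₁ ≤ X → (r : ℝ) * r.factorial < X ^ (1 - 2 * M * r * θ) ∧ X₀ ≤ X ∧ 2 ≤ X := fun X hX =>
    ⟨(hX₁ X hX).1.1, (hX₁ X hX).1.2, (hX₁ X hX).2⟩
  -- (a)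
  have ha : ∀ X, X₁ ≤ X → finrank ℚ (NearSpan v θ X) ≤ r := by
    intro X hX
    obtain ⟨-, h4, h5⟩ := hX₁' X hX
    exact (Submodule.finrank_mono (span_mono v (by linarith) hθθ₀)).trans (hv X h4)
  have hrel := rel_le v θ hθ
  -- (b)
  have hb : finrank ℚ (Rel v) ≤ r := by
    obtain ⟨X, hX, hX'⟩ := (hrel.and (eventually_ge_atTop X₁)).exists
    exact (Submodule.finrank_mono hX).trans (ha X hX')
  have hb' : finrank ℚ (Rel v) = r → ∀ᶠ X : ℝ in atTop, NearSpan v θ X = Rel v := by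
    intro hr
    filter_upwards [hrel, eventually_ge_atTop X₁] with X hX hX'
    exact (Submodule.eq_of_le_of_finrank_le hX (by rw [hr]; exact ha X hX')).symm
  -- (c)
  have hc : finrank ℚ (Rel v) < r → ∀ X, X₁ ≤ X → finrank ℚ (NearSpan v θ X) = r → ∃ Z, X ≤ Z ∧
    (∀ Y, X ≤ Y → Y ≤ Z → NearSpan v θ Y ≤ NearSpan v θ X) ∧
      ∀ Y, Z < Y → Y ≤ Z ^ M → finrank ℚ (NearSpan v θ Y) < r := by
    intro hlt X hX hXr
    obtain ⟨-, hXX₀, hX2⟩ := hX₁' X hX
    obtain ⟨f, hf, hspan, hli⟩ := exists_basis v θ X r hXr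
    have hr0 : 0 < r := by omega
    have hne : Nonempty (Fin r) := ⟨⟨0, hr0⟩⟩
    obtain ⟨j0, hj0⟩ := Finite.exists_max (fun j => ‖val v (f j)‖)
    have hδ0 : 0 < ‖val v (f j0)‖ := by
      by_contra hcon
      have h3 : ∀ j, val v (f j) = 0 := by
        intro j
        have h4 := hj0 j
        have h5 : ‖val v (f j)‖ ≤ 0 := h4.trans (not_lt.1 hcon)
        exact norm_le_zero_iff.1 h5
      have h6 : NearSpan v θ X ≤ Rel v := by
        rw [← hspan]
        refine Submodule.span_le.2 ?_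
        rintro x ⟨j, rfl⟩
        exact (toQ_mem_Rel v (f j)).2 (h3 j)
      have h7 := Submodule.finrank_mono h6
      omega
    obtain ⟨δ, hδ⟩ : ∃ δ : ℝ, δ = ‖val v (f j0)‖ := ⟨_, rfl⟩
    rw [← hδ] at hδ0
    have hδX : δ ≤ 1 / X := by rw [hδ]; exact (hf j0).2
    obtain ⟨W, hW⟩ : ∃ W : ℝ, W = 1 / δ := ⟨_, rfl⟩
    have hXW : X ≤ W := by
      rw [hW, le_div_iff₀ hδ0]
      rw [le_div_iff₀ (by linarith)] at hδX
      linarith
    have hW2 : 2 ≤ W := hX2.trans hXW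
    have hW0 : 0 < W := by linarith
    have hδW : δ = 1 / W := by rw [hW, one_div_one_div]
    have hfv : ∀ j, ‖val v (f j)‖ ≤ 1 / W := fun j => by
      rw [← hδW, hδ]
      exact hj0 j
    -- the space at the scale W
    obtain ⟨S, hS⟩ : ∃ S, S = NearSpan v θ₀ W := ⟨_, rfl⟩
    have hSr : finrank ℚ S ≤ r := by rw [hS]; exact hv W (hXX₀.trans hXW)
    have hXS : NearSpan v θ X = S := by
      refine Submodule.eq_of_le_of_finrank_le ?_ (by rw [hXr]; exact hSr)
      rw [← hspan, hS]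
      refine Submodule.span_le.2 ?_
      rintro x ⟨j, rfl⟩
      refine Submodule.subset_span ⟨f j, ?_, rfl⟩
      exact near_up v (by linarith) hXW (f j) (hf j).1 hθ.le hθθ₀ (hfv j)
    have hYS : ∀ Y, W ≤ Y → Y ≤ W ^ (2 * M) → NearSpan v θ Y ≤ NearSpan v θ X := by
      intro Y hY1 hY2
      rw [hXS, hS]
      refine Submodule.span_mono (Set.image_mono ?_)
      intro a ha
      refine ⟨fun i => (ha.1 i).trans ?_, ha.2.trans ?_⟩
      · calc Y ^ θ ≤ (W ^ (2 * M)) ^ θ := Real.rpow_le_rpow (by linarith) hY2 hθ.le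
          _ = W ^ (2 * M * θ) := by rw [← Real.rpow_mul hW0.le]
          _ ≤ W ^ θ₀ := Real.rpow_le_rpow_of_exponent_le (by linarith) h1
      · exact one_div_le_one_div_of_le hW0 hY1
    have hWW : W ≤ W ^ (2 : ℝ) := by
      rw [Real.rpow_two]
      nlinarith
    have hW2M : W ^ (2 : ℝ) ≤ W ^ (2 * M) := Real.rpow_le_rpow_of_exponent_le (by linarith) (by linarith)
    refine ⟨W ^ (2 : ℝ), hXW.trans hWW, ?_, ?_⟩
    · intro Y hY1 hY2
      by_cases hYW : Y ≤ W
      · have h3 : NearSpan v θ X ≤ NearSpan v θ Y := by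
          rw [← hspan]
          refine Submodule.span_le.2 ?_
          rintro x ⟨j, rfl⟩
          refine Submodule.subset_span ⟨f j, ?_, rfl⟩
          refine near_up v (by linarith) hY1 (f j) (hf j).1 hθ.le le_rfl ((hfv j).trans ?_)
          exact one_div_le_one_div_of_le (by linarith) hYW
        have h4 := Submodule.eq_of_le_of_finrank_le h3 (by rw [hXr]; exact ha Y (hX.trans hY1))
        exact h4.symm.le
      · exact hYS Y (not_le.1 hYW).le (hY2.trans hW2M)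
    · intro Y hY1 hY2
      have hWY : W ≤ Y := hWW.trans hY1.le
      have hY2' : Y ≤ W ^ (2 * M) := by
        rw [← Real.rpow_mul hW0.le] at hY2
        exact hY2
      by_contra hcon
      have hYr : finrank ℚ (NearSpan v θ Y) = r :=
        le_antisymm (ha Y (hX.trans (hXW.trans hWY))) (not_lt.1 hcon)
      have hEq : NearSpan v θ Y = NearSpan v θ X :=
        Submodule.eq_of_le_of_finrank_le (hYS Y hWY hY2') (by rw [hYr, hXr])
      obtain ⟨c, hcN, hcs, hcli⟩ := exists_basis v θ Y r hYr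
      have haS : toQ (f j0) ∈ Submodule.span ℚ (Set.range (fun j => toQ (c j))) := by
        rw [hcs, hEq, ← hspan]
        exact Submodule.subset_span ⟨j0, rfl⟩
      have hB : ∀ {y : ℝ}, y ≤ Y ^ θ → y ≤ W ^ (2 * M * θ) := by
        intro y hy
        refine hy.trans ?_
        calc Y ^ θ ≤ (W ^ (2 * M)) ^ θ := Real.rpow_le_rpow (by linarith) hY2' hθ.le
          _ = W ^ (2 * M * θ) := by rw [← Real.rpow_mul hW0.le]
      obtain ⟨l0, l, hl0, hl, hlb⟩ := bounded_combo c (f j0) hcli haS (W ^ (2 * M * θ))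
        (fun j i => hB ((hcN j).1 i)) (fun i => hB (((hf j0).1 i).trans
          (Real.rpow_le_rpow (by linarith) (hXW.trans hWY) hθ.le)))
      have hval := val_combo v c (f j0) l0 l hl
      have hY0 : 0 < Y := by linarith
      have hup : ‖(l0 : ℂ) * val v (f j0)‖ ≤ r * (r.factorial * (W ^ (2 * M * θ)) ^ r * (1 / Y)) := by
        rw [hval]
        refine (norm_sum_le _ _).trans ?_
        calc ∑ j, ‖(l j : ℂ) * val v (c j)‖ ≤
            ∑ _j : Fin r, (r.factorial * (W ^ (2 * M * θ)) ^ r * (1 / Y)) := by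
              refine Finset.sum_le_sum fun j _ => ?_
              rw [norm_mul, Complex.norm_intCast]
              exact mul_le_mul (hlb j) (hcN j).2 (norm_nonneg _) (by positivity)
          _ = _ := by rw [Finset.sum_const, Finset.card_univ, Fintype.card_fin, nsmul_eq_mul]
      have hl1 : (1 : ℝ) ≤ |(l0 : ℝ)| := by exact_mod_cast Int.one_le_abs hl0
      have hlow : δ ≤ ‖(l0 : ℂ) * val v (f j0)‖ := by
        rw [norm_mul, Complex.norm_intCast, ← hδ]
        nlinarith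
      have hpow : (W ^ (2 * M * θ)) ^ r = W ^ (2 * M * r * θ) := by
        rw [← Real.rpow_natCast, ← Real.rpow_mul hW0.le]
        congr 1
        ring
      rw [hpow] at hup
      have h5 : 1 / W ≤ r * (r.factorial * W ^ (2 * M * r * θ) * (1 / Y)) := by
        rw [← hδW]
        exact hlow.trans hup
      have h6 : Y ≤ W * (r * r.factorial * W ^ (2 * M * r * θ)) := by
        rw [div_le_iff₀ hW0] at h5
        have h7 : r * (r.factorial * W ^ (2 * M * r * θ) * (1 / Y)) * W =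
            W * (r * r.factorial * W ^ (2 * M * r * θ)) / Y := by
          field_simp
        rw [h7, le_div_iff₀ hY0] at h5
        linarith
      have h8 := (hX₁' W (hX.trans hXW)).1
      have h9 : W * (r * r.factorial * W ^ (2 * M * r * θ)) ≤ W ^ (2 : ℝ) := by
        have h10 : W ^ (2 : ℝ) = W * (W ^ (1 - 2 * M * r * θ) * W ^ (2 * M * r * θ)) := by
          rw [← Real.rpow_add hW0]
          have : (1 - 2 * M * r * θ + 2 * M * r * θ) = 1 := by ring
          rw [this, Real.rpow_one, Real.rpow_two, sq]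
        rw [h10]
        apply mul_le_mul_of_nonneg_left _ hW0.le
        exact mul_le_mul_of_nonneg_right h8.le (by positivity)
      linarith
  have hd : finrank ℚ (Rel v) < r → ∀ X, ∃ Z, X ≤ Z ∧ ∀ Y, Z < Y → Y ≤ Z ^ M →
      finrank ℚ (NearSpan v θ Y) < r := by
    intro hlt X
    by_cases hex : ∃ X', max X X₁ ≤ X' ∧ finrank ℚ (NearSpan v θ X') = r
    · obtain ⟨X', hX', hr'⟩ := hex
      obtain ⟨Z, hZ1, -, hZ2⟩ := hc hlt X' ((le_max_right _ _).trans hX') hr'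
      exact ⟨Z, ((le_max_left _ _).trans hX').trans hZ1, hZ2⟩
    · push Not at hex
      refine ⟨max X X₁, le_max_left _ _, fun Y hY _ => ?_⟩
      have h3 := hex Y hY.le
      have h4 := ha Y ((le_max_right _ _).trans hY.le)
      omega
  refine ⟨ha, hb, hb', hc, hd, ?_⟩
  constructor
  · intro hr
    filter_upwards [hb' hr] with X hX
    rw [hX, hr]
  · intro hev
    by_contra hne
    have hlt : finrank ℚ (Rel v) < r := lt_of_le_of_ne hb hne
    obtain ⟨X, hX⟩ := eventually_atTop.1 hev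
    obtain ⟨Z, hZ1, hZ2⟩ := hd hlt (max X 2)
    have hZ3 : 2 ≤ Z := (le_max_right _ _).trans hZ1
    have h3 : Z < Z ^ M := by
      nth_rewrite 1 [← Real.rpow_one Z]
      exact Real.rpow_lt_rpow_of_exponent_lt (by linarith) hM
    have h4 := hZ2 (Z ^ M) h3 le_rfl
    have h5 := hX (Z ^ M) (((le_max_left _ _).trans hZ1).trans h3.le)
    omega

end Pool.Agent.N743.SD
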