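import Mathlib

/-!
# Scale dichotomy for subspaces of near relations

`v` is a finite family of complex numbers. At the scale `X` the near relations are the integer vectors `a` with
`|a_i| ≤ X ^ θ` and `|∑ a_i v_i| ≤ 1 / X`. If they span a space of dimension at most `r` (for some larger exponent
`θ₀`), then either there are `r` independent exact relations, or there are arbitrarily long windows of scales at
which they span a space of dimension less than `r`.
-/

set_option autoImplicit false

open Filter Module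

namespace Pool.Agent.N743.SD

variable {ι : Type} [Fintype ι]

/-- an integer vector as a rational vector -/
def toQ (a : ι → ℤ) : ι → ℚ := fun i => (a i : ℚ)

/-- the value of the integer vector `a` at `v` -/
noncomputable def val (v : ι → ℂ) (a : ι → ℤ) : ℂ := ∑ i, (a i : ℂ) * v i

/-- the near relations at the scale `X` -/
def Near (v : ι → ℂ) (θ X : ℝ) : Set (ι → ℤ) := {a | (∀ i, |(a i : ℝ)| ≤ X ^ θ) ∧ ‖val v a‖ ≤ 1 / X}

/-- the space of the near relations at the scale `X` -/
noncomputable def NearSpan (v : ι → ℂ) (θ X : ℝ) : Submodule ℚ (ι → ℚ) :=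
  Submodule.span ℚ (toQ '' Near v θ X)

/-- the space of the exact relations -/
noncomputable def Rel (v : ι → ℂ) : Submodule ℚ (ι → ℚ) :=
  LinearMap.ker (Fintype.linearCombination ℚ v)

theorem mem_Rel (v : ι → ℂ) (a : ι → ℚ) : a ∈ Rel v ↔ ∑ i, (a i : ℂ) * v i = 0 := by
  unfold Rel
  rw [LinearMap.mem_ker, Fintype.linearCombination_apply]
  have : ∀ i, a i • v i = (a i : ℂ) * v i := fun i => Rat.smul_def _ _
  simp only [this]

theorem toQ_mem_Rel (v : ι → ℂ) (a : ι → ℤ) : toQ a ∈ Rel v ↔ val v a = 0 := by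
  rw [mem_Rel]
  unfold val toQ
  push_cast
  rfl

theorem near_mono (v : ι → ℂ) {θ θ' X : ℝ} (hX : 1 ≤ X) (hθ : θ ≤ θ') : Near v θ X ⊆ Near v θ' X :=
  fun _ ha => ⟨fun i => (ha.1 i).trans (Real.rpow_le_rpow_of_exponent_le hX hθ), ha.2⟩

theorem span_mono (v : ι → ℂ) {θ θ' X : ℝ} (hX : 1 ≤ X) (hθ : θ ≤ θ') : NearSpan v θ X ≤ NearSpan v θ' X :=
  Submodule.span_mono (Set.image_mono (near_mono v hX hθ))

/-- integral basis from the near relations -/
theorem exists_basis (v : ι → ℂ) (θ X : ℝ) (r : ℕ) (hr : finrank ℚ (NearSpan v θ X) = r) :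
    ∃ f : Fin r → ι → ℤ, (∀ j, f j ∈ Near v θ X) ∧
      Submodule.span ℚ (Set.range (fun j => toQ (f j))) = NearSpan v θ X ∧
      LinearIndependent ℚ (fun j => toQ (f j)) := by
  subst hr
  unfold NearSpan
  obtain ⟨f, hf, hs, hli⟩ := Submodule.exists_fun_fin_finrank_span_eq ℚ (toQ '' Near v θ X)
  choose g hg1 hg2 using hf
  have h1 : (fun j => toQ (g j)) = f := funext hg2
  refine ⟨g, hg1, ?_, ?_⟩
  · rw [h1]
    exact hs
  · rw [h1]
    exact hli

/-- exact relations are near relations at all large scales -/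
theorem rel_le (v : ι → ℂ) (θ : ℝ) (hθ : 0 < θ) : ∀ᶠ X : ℝ in atTop, Rel v ≤ NearSpan v θ X := by
  obtain ⟨s, hs⟩ := (IsNoetherian.noetherian (Rel v) : (Rel v).FG)
  have h1 : ∀ x ∈ s, ∀ᶠ X : ℝ in atTop, x ∈ NearSpan v θ X := by
    intro x hx
    have hxR : x ∈ Rel v := by rw [← hs]; exact Submodule.subset_span hx
    -- common denominator
    obtain ⟨d, hd⟩ : ∃ d : ℕ, d = ∏ i, (x i).den := ⟨_, rfl⟩
    have hd0 : d ≠ 0 := by
      rw [hd]
      exact Finset.prod_ne_zero_iff.2 fun i _ => (x i).den_nz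
    have h2 : ∀ i, ∃ m : ℤ, (m : ℚ) = d * x i := by
      intro i
      have h3 : (x i).den ∣ d := by rw [hd]; exact Finset.dvd_prod_of_mem _ (Finset.mem_univ i)
      obtain ⟨e, he⟩ := h3
      refine ⟨e * (x i).num, ?_⟩
      have h4 := Rat.den_mul_eq_num (x i)
      rw [he]
      push_cast
      calc (e : ℚ) * ((x i).num : ℚ) = e * ((x i).den * x i) := by rw [h4]
        _ = _ := by ring
    choose a ha using h2
    have hax : toQ a = (d : ℚ) • x := by
      funext i
      simp only [toQ, Pi.smul_apply, smul_eq_mul, ha]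
    have hva : val v a = 0 := by
      rw [← toQ_mem_Rel, hax]
      exact (Rel v).smul_mem _ hxR
    obtain ⟨B, hB⟩ : ∃ B : ℝ, ∀ i, |(a i : ℝ)| ≤ B :=
      ⟨∑ i, |(a i : ℝ)|, fun i => Finset.single_le_sum (f := fun i => |(a i : ℝ)|) (fun _ _ => abs_nonneg _)
        (Finset.mem_univ i)⟩
    filter_upwards [(tendsto_rpow_atTop hθ).eventually_ge_atTop B, eventually_gt_atTop 0] with X hX hX0
    have h5 : toQ a ∈ NearSpan v θ X := by
      apply Submodule.subset_span
      refine ⟨a, ⟨fun i => (hB i).trans hX, ?_⟩, rfl⟩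
      rw [hva, norm_zero]
      positivity
    have h6 : x = (d : ℚ)⁻¹ • toQ a := by
      rw [hax, smul_smul, inv_mul_cancel₀ (by exact_mod_cast hd0), one_smul]
    rw [h6]
    exact (NearSpan v θ X).smul_mem _ h5
  rw [← Filter.eventually_all_finset] at h1
  filter_upwards [h1] with X hX
  rw [← hs]
  exact Submodule.span_le.2 fun x hx => hX x hx

/-- a nonzero minor of a family of independent rows -/
theorem exists_minor {r : ℕ} (W : Fin r → ι → ℚ) (h : LinearIndependent ℚ W) :
    ∃ g : Fin r → ι, (Matrix.of (fun i j => W i (g j))).det ≠ 0 := by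
  classical
  obtain ⟨M, hM⟩ : ∃ M : Matrix (Fin r) ι ℚ, M = Matrix.of W := ⟨_, rfl⟩
  have hrow : M.row = W := by rw [hM]; rfl
  have hrank : M.rank = r := by
    have h1 : LinearIndependent ℚ M.row := by rw [hrow]; exact h
    rw [h1.rank_matrix, Fintype.card_fin]
  rw [M.rank_eq_finrank_span_cols] at hrank
  obtain ⟨κ', a, ha, hspan, hli⟩ := exists_linearIndependent' ℚ M.col
  have hfin : Finite κ' := hli.finite
  have : Fintype κ' := Fintype.ofFinite κ'
  have hcard : Fintype.card κ' = r := by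
    rw [linearIndependent_iff_card_eq_finrank_span.1 hli, Set.finrank, hspan, hrank]
  obtain ⟨e⟩ : Nonempty (Fin r ≃ κ') := by
    rw [← Fintype.card_eq, Fintype.card_fin, hcard]
  refine ⟨fun j => a (e j), ?_⟩
  have h2 : (Matrix.of (fun i j => W i (a (e j)))).col = (M.col ∘ a) ∘ e := by
    funext j i
    rw [hM]
    rfl
  have h3 : LinearIndependent ℚ (Matrix.of (fun i j => W i (a (e j)))).col := by
    rw [h2]
    exact hli.comp _ e.injective
  have h4 := Matrix.linearIndependent_cols_iff_isUnit.1 h3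
  exact ((Matrix.isUnit_iff_isUnit_det _).1 h4).ne_zero

/-- an integer vector in the span of independent integer vectors: bounded integral coefficients -/
theorem bounded_combo {r : ℕ} (c : Fin r → ι → ℤ) (a : ι → ℤ)
    (hli : LinearIndependent ℚ (fun j => toQ (c j)))
    (ha : toQ a ∈ Submodule.span ℚ (Set.range (fun j => toQ (c j)))) (B : ℝ)
    (hc : ∀ j i, |(c j i : ℝ)| ≤ B) (haB : ∀ i, |(a i : ℝ)| ≤ B) :
    ∃ (l0 : ℤ) (l : Fin r → ℤ), l0 ≠ 0 ∧ (∀ i, l0 * a i = ∑ j, l j * c j i) ∧
      ∀ j, |(l j : ℝ)| ≤ r.factorial * B ^ r := by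
  classical
  obtain ⟨g, hg⟩ := exists_minor _ hli
  obtain ⟨G, hG⟩ : ∃ G : Matrix (Fin r) (Fin r) ℤ, G = Matrix.of (fun i j => c j (g i)) := ⟨_, rfl⟩
  obtain ⟨w, hw⟩ : ∃ w : Fin r → ℤ, w = fun i => a (g i) := ⟨_, rfl⟩
  rw [Submodule.mem_span_range_iff_exists_fun] at ha
  obtain ⟨q, hq⟩ := ha
  have hqi : ∀ i, ∑ j, q j * (c j i : ℚ) = (a i : ℚ) := by
    intro i
    have := congrFun hq i
    simpa [toQ] using this
  -- the determinant over the rationals
  have hdetQ : (G.map (Int.cast : ℤ → ℚ)).det ≠ 0 := by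
    have h1 : (G.map (Int.cast : ℤ → ℚ)) = (Matrix.of (fun i j => toQ (c i) (g j))).transpose := by
      ext i j
      rw [hG]
      rfl
    rw [h1, Matrix.det_transpose]
    exact hg
  have hdet : ((G.det : ℤ) : ℚ) = (G.map (Int.cast : ℤ → ℚ)).det := by
    have := (Int.castRingHom ℚ).map_det G
    simpa using this
  have hdet0 : G.det ≠ 0 := by
    intro h0
    apply hdetQ
    rw [← hdet, h0, Int.cast_zero]
  -- Cramer
  have hcr : ∀ j, ((G.cramer w j : ℤ) : ℚ) = (G.det : ℚ) * q j := by
    intro j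
    have h2 : ((G.cramer w j : ℤ) : ℚ) = (G.map (Int.cast : ℤ → ℚ)).cramer (fun i => (w i : ℚ)) j := by
      rw [Matrix.cramer_apply, Matrix.cramer_apply]
      have h3 := (Int.castRingHom ℚ).map_det (G.updateCol j w)
      rw [show ((G.updateCol j w).det : ℚ) = (Int.castRingHom ℚ) (G.updateCol j w).det from rfl, h3]
      congr 1
      ext i k
      simp only [RingHom.mapMatrix_apply, Matrix.map_apply, Matrix.updateCol_apply]
      split <;> simp
    have h4 : (fun i => (w i : ℚ)) = (G.map (Int.cast : ℤ → ℚ)).mulVec q := by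
      funext i
      rw [Matrix.mulVec, dotProduct]
      simp only [Matrix.map_apply, hG, Matrix.of_apply, hw]
      rw [← hqi (g i)]
      exact Finset.sum_congr rfl fun j _ => mul_comm _ _
    rw [h2, h4, Matrix.cramer_eq_adjugate_mulVec, Matrix.mulVec_mulVec, Matrix.adjugate_mul, hdet]
    simp [Matrix.smul_mulVec]
  obtain ⟨D, hD⟩ : ∃ D : ℤ, D = G.det := ⟨_, rfl⟩
  obtain ⟨l, hl⟩ : ∃ l : Fin r → ℤ, l = fun j => G.cramer w j := ⟨_, rfl⟩
  have hcr' : ∀ j, (l j : ℚ) = (D : ℚ) * q j := fun j => by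
    rw [hl, hD]
    exact hcr j
  refine ⟨D, l, by rw [hD]; exact hdet0, ?_, ?_⟩
  · intro i
    have h5 : ((D * a i : ℤ) : ℚ) = ((∑ j, l j * c j i : ℤ) : ℚ) := by
      push_cast
      simp only [hcr']
      rw [← hqi i, Finset.mul_sum]
      exact Finset.sum_congr rfl fun j _ => by ring
    exact_mod_cast h5
  · intro j
    have hlj : l j = (G.updateCol j w).det := by
      rw [hl]
      exact Matrix.cramer_apply _ _ _
    rw [hlj]
    have h6 := Matrix.det_le (A := (G.updateCol j w).map (Int.cast : ℤ → ℝ))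
      (abv := AbsoluteValue.abs) (x := B) (by
        intro i k
        rw [Matrix.map_apply, Matrix.updateCol_apply]
        split
        · rw [hw]
          exact haB _
        · rw [hG]
          exact hc _ _)
    rw [Fintype.card_fin, nsmul_eq_mul] at h6
    have h7 : (((G.updateCol j w).det : ℤ) : ℝ) = ((G.updateCol j w).map (Int.cast : ℤ → ℝ)).det := by
      have := (Int.castRingHom ℝ).map_det (G.updateCol j w)
      simpa using this
    rw [h7]
    exact h6

end Pool.Agent.N743.SD
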