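import Pool.Agent.V11210.ZZ.Gen
import Pool.Agent.N743.SD.Dich

/-!
# The rank of the spaces of near relations between `ζ(2)ζ(3), ζ(2), ζ(3), ζ(4)` and arbitrary real numbers
-/

set_option autoImplicit false

open Filter Module

namespace Pool.Agent.N743.SD

open Pool.Agent.V11210.ZZ (Vec zeta)

/-- the family `ζ(2)ζ(3), ζ(2), ζ(3), ζ(4), z_1, …, z_r` -/
noncomputable def fam {r : ℕ} (z : Fin r → ℝ) : Fin 4 ⊕ Fin r → ℂ := fun i =>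
  ((Sum.elim (![zeta 2 * zeta 3, zeta 2, zeta 3, zeta 4] : Fin 4 → ℝ) z i : ℝ) : ℂ)

/-- the vector of the library -/
def toV {r : ℕ} (a : Fin 4 ⊕ Fin r → ℤ) : Vec r :=
  (![a (Sum.inl 0), -a (Sum.inl 1), -a (Sum.inl 2), -a (Sum.inl 3)], fun i => -a (Sum.inr i))

theorem val_fam {r : ℕ} (z : Fin r → ℝ) (a : Fin 4 ⊕ Fin r → ℤ) :
    val (fam z) a = ((Pool.Agent.V11210.ZZ.value z (toV a) : ℝ) : ℂ) := by
  unfold val fam Pool.Agent.V11210.ZZ.value toV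
  rw [Fintype.sum_sum_type]
  simp only [Sum.elim_inl, Sum.elim_inr, Fin.sum_univ_four, Matrix.cons_val_zero, Matrix.cons_val_one, Matrix.cons_val]
  push_cast
  simp only [neg_mul, Finset.sum_neg_distrib]
  ring

theorem norm_val_fam {r : ℕ} (z : Fin r → ℝ) (a : Fin 4 ⊕ Fin r → ℤ) :
    ‖val (fam z) a‖ = |Pool.Agent.V11210.ZZ.value z (toV a)| := by
  rw [val_fam, Complex.norm_real, Real.norm_eq_abs]

theorem toV_near {r : ℕ} (z : Fin r → ℝ) (a : Fin 4 ⊕ Fin r → ℤ) (c Y : ℝ) (κ : ℕ) (h1 : ∀ i, |(a i : ℝ)| ≤ Y)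
    (h2 : ‖val (fam z) a‖ < c / Y ^ κ) : toV a ∈ Pool.Agent.V11210.ZZ.near c κ z Y := by
  refine ⟨fun i => ?_, fun i => ?_, ?_⟩
  · fin_cases i
    · simpa [toV] using h1 (Sum.inl 0)
    · simpa [toV] using h1 (Sum.inl 1)
    · simpa [toV] using h1 (Sum.inl 2)
    · simpa [toV] using h1 (Sum.inl 3)
  · simpa [toV] using h1 (Sum.inr i)
  · rwa [← norm_val_fam]

theorem toV_sum {r n : ℕ} (l : Fin n → ℤ) (f : Fin n → Fin 4 ⊕ Fin r → ℤ) (h : ∑ j, l j • toV (f j) = 0) :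
    ∀ i, ∑ j, l j * f j i = 0 := by
  rw [Prod.ext_iff, Prod.fst_sum, Prod.snd_sum] at h
  obtain ⟨h1, h2⟩ := h
  intro i
  rcases i with i | i
  · have h3 := congrFun h1 i
    rw [Finset.sum_apply] at h3
    fin_cases i
    · simpa [toV] using h3
    · simpa [toV] using h3
    · simpa [toV] using h3
    · simpa [toV] using h3
  · have h3 := congrFun h2 i
    rw [Finset.sum_apply] at h3
    simpa [toV] using h3

theorem rank_prod (r : ℕ) : ∃ θ₀ : ℝ, 0 < θ₀ ∧ ∃ X₀ : ℝ, ∀ z : Fin r → ℝ, ∀ X, X₀ ≤ X →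
    finrank ℚ (NearSpan (fam z) θ₀ X) ≤ r + 1 := by
  obtain ⟨c, hc, κ, h⟩ := Pool.Agent.V11210.ZZ.gen r
  obtain ⟨θ₀, hθdef⟩ : ∃ θ₀ : ℝ, θ₀ = 1 / ((κ : ℝ) + 1) := ⟨_, rfl⟩
  have hk : (0 : ℝ) ≤ κ := Nat.cast_nonneg κ
  have hθ₀ : 0 < θ₀ := by
    rw [hθdef]
    positivity
  obtain ⟨X₀, hX₀⟩ := eventually_atTop.1 (((tendsto_rpow_atTop hθ₀).eventually_gt_atTop (1 / c)).and
    (eventually_ge_atTop (1 : ℝ)))
  refine ⟨θ₀, hθ₀, X₀, fun z X hX => ?_⟩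
  obtain ⟨hX1, hX2⟩ := hX₀ X hX
  have hX0 : 0 < X := by linarith
  by_contra hcon
  obtain ⟨R, hR⟩ : ∃ R : ℕ, R = finrank ℚ (NearSpan (fam z) θ₀ X) := ⟨_, rfl⟩
  rw [← hR] at hcon
  obtain ⟨f, hf, -, hli⟩ := exists_basis (fam z) θ₀ X R hR.symm
  have hRr : r + 2 ≤ R := by omega
  have hgli : LinearIndependent ℚ (fun k : Fin (r + 2) => toQ (f (Fin.castLE hRr k))) :=
    hli.comp (Fin.castLE hRr) (Fin.castLE_injective hRr)
  have hY1 : 1 ≤ X ^ θ₀ := Real.one_le_rpow hX2 hθ₀.le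
  have hY0 : 0 < X ^ θ₀ := by linarith
  have hYX : (X ^ θ₀) ^ (κ + 1) = X := by
    rw [← Real.rpow_natCast, ← Real.rpow_mul hX0.le, hθdef]
    push_cast
    rw [one_div, inv_mul_cancel₀ (by positivity), Real.rpow_one]
  obtain ⟨l, hl0, hl⟩ := h z (X ^ θ₀) hY1 (fun k => toV (f (Fin.castLE hRr k))) (fun k => by
    refine toV_near z _ c _ κ (hf _).1 ((hf _).2.trans_lt ?_)
    rw [div_lt_div_iff₀ hX0 (by positivity)]
    rw [div_lt_iff₀ hc] at hX1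
    calc 1 * (X ^ θ₀) ^ κ < (X ^ θ₀ * c) * (X ^ θ₀) ^ κ := by
          apply mul_lt_mul_of_pos_right hX1 (by positivity)
      _ = c * (X ^ θ₀) ^ (κ + 1) := by ring
      _ = c * X := by rw [hYX])
  have h3 := toV_sum l _ hl
  apply hl0
  funext k
  have h4 := Fintype.linearIndependent_iff.1 hgli (fun k => (l k : ℚ)) (by
    funext i
    rw [Finset.sum_apply]
    have h5 : ((∑ j, l j * f (Fin.castLE hRr j) i : ℤ) : ℚ) = 0 := by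
      rw [h3 i, Int.cast_zero]
    push_cast at h5
    simpa [toQ] using h5) k
  exact_mod_cast h4

theorem dich_prod (r : ℕ) : ∃ θ₀ : ℝ, 0 < θ₀ ∧ ∀ θ M : ℝ, 0 < θ → 1 < M → M * θ ≤ θ₀ → ∃ X₁ : ℝ,
    ∀ z : Fin r → ℝ, DichS (r + 1) (fam z) θ M X₁ := by
  obtain ⟨θ₀, hθ₀, X₀, h⟩ := rank_prod r
  have hr : (0 : ℝ) ≤ r := Nat.cast_nonneg r
  refine ⟨min (θ₀ / 2) (1 / (4 * ((r : ℝ) + 1))), by positivity, fun θ M hθ hM hMθ => ?_⟩
  have h1 : M * θ ≤ θ₀ / 2 := hMθ.trans (min_le_left _ _)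
  have h2 : M * θ ≤ 1 / (4 * ((r : ℝ) + 1)) := hMθ.trans (min_le_right _ _)
  obtain ⟨X₁, hX₁⟩ := dich (ι := Fin 4 ⊕ Fin r) (r + 1) θ₀ X₀ θ M hθ hM (by linarith) (by
    rw [le_div_iff₀ (by positivity)] at h2
    push_cast
    nlinarith)
  exact ⟨X₁, fun z => hX₁ (fam z) (h z)⟩

end Pool.Agent.N743.SD
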