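import Pool.Agent.N743.SD.Dich
import Pool.Agent.N743.SD.Core

/-!
# The rank of the spaces of near relations from a measure of linear independence
-/

set_option autoImplicit false

open Filter Module

namespace Pool.Agent.N743.SD

theorem rank_of_measure {n : ℕ} (v0 : Fin n → ℂ) (κ : ℕ) (c : ℝ) (hc : 0 < c)
    (hm : ∀ P : Fin n → ℤ, P ≠ 0 → ∀ H : ℝ, 1 ≤ H → (∀ i, |(P i : ℝ)| ≤ H) →
      c / H ^ κ ≤ ‖∑ i, (P i : ℂ) * v0 i‖) (r : ℕ) (θ₀ : ℝ) (hθ₀ : 0 < θ₀)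
    (h : ((κ : ℝ) + 1) * (r + 1) * θ₀ < 1) : ∃ X₀ : ℝ, ∀ t : Fin r → ℂ, ∀ X, X₀ ≤ X →
      finrank ℚ (NearSpan (Sum.elim v0 t) θ₀ X) ≤ r := by
  obtain ⟨c', hc', hcore⟩ := core v0 κ c hc hm r
  have hexp : 0 < 1 - ((κ : ℝ) + 1) * (r + 1) * θ₀ := by linarith
  obtain ⟨X₀, hX₀⟩ := eventually_atTop.1 (((tendsto_rpow_atTop hexp).eventually_gt_atTop
    (((r : ℝ) + 1) / c')).and (eventually_ge_atTop (1 : ℝ)))
  refine ⟨X₀, fun t X hX => ?_⟩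
  obtain ⟨hX1, hX2⟩ := hX₀ X hX
  have hX0 : 0 < X := by linarith
  by_contra hcon
  obtain ⟨R, hR⟩ : ∃ R : ℕ, R = finrank ℚ (NearSpan (Sum.elim v0 t) θ₀ X) := ⟨_, rfl⟩
  rw [← hR] at hcon
  obtain ⟨f, hf, -, hli⟩ := exists_basis (Sum.elim v0 t) θ₀ X R hR.symm
  have hRr : r + 1 ≤ R := by omega
  obtain ⟨g, hg⟩ : ∃ g : Fin (r + 1) → (Fin n ⊕ Fin r) → ℤ, g = fun k => f (Fin.castLE hRr k) := ⟨_, rfl⟩
  have hgli : LinearIndependent ℚ (fun k => toQ (g k)) := by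
    rw [hg]
    exact hli.comp (Fin.castLE hRr) (Fin.castLE_injective hRr)
  have hgN : ∀ k, g k ∈ Near (Sum.elim v0 t) θ₀ X := fun k => by
    rw [hg]
    exact hf _
  have hliZ : LinearIndependent ℤ (fun k => ((fun i => g k (Sum.inl i) : Fin n → ℤ), (fun i => g k (Sum.inr i) : Fin r → ℤ))) := by
    rw [Fintype.linearIndependent_iff]
    intro l hl k
    have h1 := Fintype.linearIndependent_iff.1 hgli (fun k => (l k : ℚ)) (by
      funext i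
      rw [Finset.sum_apply]
      rw [Prod.ext_iff, Prod.fst_sum, Prod.snd_sum] at hl
      obtain ⟨hl1, hl2⟩ := hl
      cases i with
      | inl i =>
        have h2 := congrFun hl1 i
        rw [Finset.sum_apply] at h2
        have h3 : ((∑ k, l k * g k (Sum.inl i) : ℤ) : ℚ) = 0 := by
          have h4 : (∑ k, l k * g k (Sum.inl i) : ℤ) = 0 := by simpa using h2
          rw [h4, Int.cast_zero]
        push_cast at h3
        simpa [toQ] using h3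
      | inr i =>
        have h2 := congrFun hl2 i
        rw [Finset.sum_apply] at h2
        have h3 : ((∑ k, l k * g k (Sum.inr i) : ℤ) : ℚ) = 0 := by
          have h4 : (∑ k, l k * g k (Sum.inr i) : ℤ) = 0 := by simpa using h2
          rw [h4, Int.cast_zero]
        push_cast at h3
        simpa [toQ] using h3) k
    exact_mod_cast h1
  have hH1 : 1 ≤ X ^ θ₀ := Real.one_le_rpow hX2 hθ₀.le
  have h2 := hcore t _ _ (fun _ => X ^ θ₀) hliZ (fun k =>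
    ⟨hH1, fun i => (hgN k).1 (Sum.inl i), fun i => (hgN k).1 (Sum.inr i)⟩)
  rw [Finset.prod_const, Finset.card_univ, Fintype.card_fin] at h2
  have h3 : ∑ k : Fin (r + 1), ‖(∑ i, ((g k (Sum.inl i) : ℤ) : ℂ) * v0 i) + ∑ i, ((g k (Sum.inr i) : ℤ) : ℂ) * t i‖ / X ^ θ₀ ≤
      ∑ _k : Fin (r + 1), 1 / X := by
    refine Finset.sum_le_sum fun k _ => ?_
    have h4 : (∑ i, ((g k (Sum.inl i) : ℤ) : ℂ) * v0 i) + ∑ i, ((g k (Sum.inr i) : ℤ) : ℂ) * t i =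
        val (Sum.elim v0 t) (g k) := by
      unfold val
      rw [Fintype.sum_sum_type]
      rfl
    rw [h4]
    calc ‖val (Sum.elim v0 t) (g k)‖ / X ^ θ₀ ≤ ‖val (Sum.elim v0 t) (g k)‖ / 1 :=
          div_le_div_of_nonneg_left (norm_nonneg _) one_pos hH1
      _ = ‖val (Sum.elim v0 t) (g k)‖ := div_one _
      _ ≤ 1 / X := (hgN k).2
  rw [Finset.sum_const, Finset.card_univ, Fintype.card_fin, nsmul_eq_mul] at h3
  have h5 := h2.trans h3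
  have h6 : (((X ^ θ₀) ^ (κ + 1))⁻¹) ^ (r + 1) = (X ^ (((κ : ℝ) + 1) * (r + 1) * θ₀))⁻¹ := by
    rw [inv_pow, ← pow_mul, ← Real.rpow_natCast, ← Real.rpow_mul hX0.le]
    congr 2
    push_cast
    ring
  rw [h6] at h5
  have h7 : 0 < X ^ (((κ : ℝ) + 1) * (r + 1) * θ₀) := Real.rpow_pos_of_pos hX0 _
  rw [← div_eq_mul_inv, div_le_iff₀ h7] at h5
  have h8 : X ^ (1 - ((κ : ℝ) + 1) * (r + 1) * θ₀) = X / X ^ (((κ : ℝ) + 1) * (r + 1) * θ₀) := by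
    rw [Real.rpow_sub hX0, Real.rpow_one]
  rw [h8, div_lt_div_iff₀ hc' h7] at hX1
  push_cast at h5
  have h9 : c' * X ≤ ((r : ℝ) + 1) * (1 / X) * X ^ (((κ : ℝ) + 1) * (r + 1) * θ₀) * X :=
    mul_le_mul_of_nonneg_right h5 hX0.le
  have h10 : ((r : ℝ) + 1) * (1 / X) * X ^ (((κ : ℝ) + 1) * (r + 1) * θ₀) * X =
      ((r : ℝ) + 1) * X ^ (((κ : ℝ) + 1) * (r + 1) * θ₀) := by
    field_simp
  linarith

/-- the dichotomy for numbers with a measure and arbitrary numbers -/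
theorem dich_of_measure {n : ℕ} (v0 : Fin n → ℂ) (κ : ℕ) (c : ℝ) (hc : 0 < c)
    (hm : ∀ P : Fin n → ℤ, P ≠ 0 → ∀ H : ℝ, 1 ≤ H → (∀ i, |(P i : ℝ)| ≤ H) →
      c / H ^ κ ≤ ‖∑ i, (P i : ℂ) * v0 i‖) (r : ℕ) (θ M : ℝ) (hθ : 0 < θ) (hM : 1 < M)
    (h : 2 * ((κ : ℝ) + 1) * (r + 1) * M * θ < 1) : ∃ X₁ : ℝ, ∀ t : Fin r → ℂ,
      DichS r (Sum.elim v0 t) θ M X₁ := by
  have hM0 : 0 < M := by linarith
  obtain ⟨X₀, hX₀⟩ := rank_of_measure v0 κ c hc hm r (2 * M * θ) (by positivity) (by nlinarith)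
  have hk : (0 : ℝ) ≤ κ := Nat.cast_nonneg κ
  have hr : (0 : ℝ) ≤ r := Nat.cast_nonneg r
  obtain ⟨X₁, hX₁⟩ := dich (ι := Fin n ⊕ Fin r) r (2 * M * θ) X₀ θ M hθ hM le_rfl (by
    have h1 : 2 * M * r * θ ≤ 2 * ((κ : ℝ) + 1) * (r + 1) * M * θ := by
      have h2 : (r : ℝ) ≤ ((κ : ℝ) + 1) * (r + 1) := by nlinarith
      have h3 : 0 ≤ 2 * M * θ := by positivity
      nlinarith
    linarith)
  exact ⟨X₁, fun t => hX₁ (Sum.elim v0 t) (hX₀ t)⟩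

end Pool.Agent.N743.SD
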